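import Pool.Agent.Helper19.PM.GoalsS

/-!
# Project P1S (MP_a41896_nt), packet TN-HEV: the height of a value of a polynomial
-/

set_option autoImplicit false

open MvPolynomial

namespace Pool.Agent.Helper25.PM

open Height Height.AdmissibleAbsValues

/-- the height of the value of a monomial -/
theorem hev_mon {K : Type} [Field K] [NumberField K] {σ : Type} [Fintype σ] [DecidableEq σ]
    (S : Finset σ) (a : K) (m : σ →₀ ℕ) (hm : ∀ i, i ∉ S → m i = 0) (t : σ → K) :
    logHeight₁ (a * ∏ i, t i ^ m i) ≤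
      (logHeight₁ a + ∑ i, (m i : ℝ)) * (1 + ∑ i ∈ S, logHeight₁ (t i)) := by
  have hnn : ∀ i, 0 ≤ logHeight₁ (t i) := fun i => zero_le_logHeight₁ _
  have hS : 0 ≤ ∑ i ∈ S, logHeight₁ (t i) := Finset.sum_nonneg fun i _ => hnn i
  have h1 : logHeight₁ (a * ∏ i, t i ^ m i) ≤ logHeight₁ a + ∑ i, (m i : ℝ) * logHeight₁ (t i) := by
    refine (logHeight₁_mul_le _ _).trans ?_
    refine add_le_add_right ((logHeight₁_prod_le _ _).trans (le_of_eq ?_)) _
    exact Finset.sum_congr rfl fun i _ => logHeight₁_pow _ _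
  refine h1.trans ?_
  rw [add_mul]
  refine add_le_add ?_ ?_
  · have := zero_le_logHeight₁ a
    nlinarith
  · rw [Finset.sum_mul]
    refine Finset.sum_le_sum fun i _ => ?_
    by_cases hi : i ∈ S
    · refine mul_le_mul_of_nonneg_left ?_ (Nat.cast_nonneg _)
      have := Finset.single_le_sum (f := fun i => logHeight₁ (t i)) (fun i _ => hnn i) hi
      linarith
    · rw [hm i hi]
      simp

theorem t_HEV : Pool.Agent.Helper19.PM.HEV := by
  intro K _ _ σ _ _ S P hP
  refine ⟨totalWeight K * Real.log (P.support.card) +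
    ∑ m ∈ P.support, (logHeight₁ (coeff m P) + ∑ i, (m i : ℝ)), ?_, fun t => ?_⟩
  · refine add_nonneg (mul_nonneg (Nat.cast_nonneg _) (Real.log_natCast_nonneg _)) ?_
    refine Finset.sum_nonneg fun m _ => add_nonneg (zero_le_logHeight₁ _) ?_
    exact Finset.sum_nonneg fun i _ => Nat.cast_nonneg _
  · have hS : 0 ≤ ∑ i ∈ S, logHeight₁ (t i) :=
      Finset.sum_nonneg fun i _ => zero_le_logHeight₁ _
    rw [eval_eq']
    refine (logHeight₁_sum_le _ _).trans ?_
    rw [add_mul, Finset.sum_mul]
    refine add_le_add ?_ (Finset.sum_le_sum fun m hm => ?_)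
    · have h0 : 0 ≤ (totalWeight K : ℝ) * Real.log (P.support.card) :=
        mul_nonneg (Nat.cast_nonneg _) (Real.log_natCast_nonneg _)
      nlinarith
    · refine hev_mon S _ m (fun i hi => ?_) t
      have h1 := monomial_le_degreeOf i hm
      rw [hP i hi] at h1
      exact Nat.le_zero.mp h1

end Pool.Agent.Helper25.PM
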